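import Pool.Agent.H239Z.SplitDefs
import Pool.Agent.H239Z.SplitCount

/-!
The probability that `Av(π)` is unsplittable stays bounded away from `1`.

If `π` has two adjacent entries `v, v + 1` at positions `i, i + 1`, and its first eight and last
eight entries and `v` follow one fixed order pattern, then two explicit members of `Av(π)` of length
`2n` cannot be amalgamated over a point inside `Av(π)`, which gives a splitting.  A positive
proportion of all `π` is of this form.
-/

set_option autoImplicit false

namespace Pool.Agent.Results.MP_d28c7d_co.BoundedAwayFromOne

open Pool.Agent.H239Z.Split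

/-- There is `ε > 0` such that `p_n ≤ 1 - ε` for all large `n`. -/
theorem result : ∃ ε : ℝ, 0 < ε ∧ ∀ᶠ n in Filter.atTop, prob n ≤ 1 - ε :=
  prob_le

end Pool.Agent.Results.MP_d28c7d_co.BoundedAwayFromOne
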